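import Pool.Agent.H15.TD.Tfae

/-!
# Transcendence degrees of zero-cycles: surfaces
-/

set_option autoImplicit false

namespace Pool.Agent.H15.TD

open Pool.Agent.Y148.OD

variable {r : ℕ} {X : Set (Pt r)}

theorem isAlgebraic_of_rk {K : Subfield ℂ} {S : Set ℂ} (h : rk K S ≤ 0) {c : ℂ} (hc : c ∈ S) :
    IsAlgebraic K c := by
  by_contra hcon
  have h1 : (1 : ℕ∞) ≤ rk K S := by
    refine le_rk_iff.mpr ⟨{c}, Set.singleton_subset_iff.mpr hc, ?_, Set.encard_singleton c⟩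
    have h2 : Transcendental K c := hcon
    exact algebraicIndependent_unique_type_iff.mpr h2
  exact absurd (h1.trans h) (by simp)

theorem surface {X : Set (Pt r)} (hX : IsVariety X 2) (hinf : ¬ ∃ c : ℕ, ∀ n, dn X 2 n ≤ c) :
    ∃ K₀ : Subfield ℂ, Countable K₀ ∧ ∀ K : Subfield ℂ, Countable K → K₀ ≤ K →
      ∀ (n : ℕ) (z : Fin n → X), IsGeneric 2 K z →
        (∀ (a b : ℕ) (x : Fin a → X) (y : Fin b → X), γ X z = γ X x - γ X y →
          ∀ c ∈ ratios fun i => (z i : Pt r), IsAlgebraic (adj K (cycRatios x y)) c) ∧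
        ∀ x : Fin n → X, γ X x = γ X z →
          (∀ c ∈ ratios fun i => (x i : Pt r), IsAlgebraic (adj K (ratios fun i => (z i : Pt r))) c) ∧
          ∀ c ∈ ratios fun i => (z i : Pt r),
            IsAlgebraic (adj K (ratios fun i => (x i : Pt r))) c := by
  obtain ⟨K₀, hK₀, h⟩ := rigid le_rfl hX hinf
  refine ⟨K₀, hK₀, fun K hK hKK n z hz => ?_⟩
  obtain ⟨h1, h2⟩ := h K hK hKK n z hz
  have h3 : ∀ (a b : ℕ) (x : Fin a → X) (y : Fin b → X), γ X z = γ X x - γ X y →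
      ∀ c ∈ ratios fun i => (z i : Pt r), IsAlgebraic (adj K (cycRatios x y)) c :=
    fun a b x y hxy c hc => isAlgebraic_of_rk (by simpa using (h1 a b x y hxy).1) hc
  refine ⟨h3, fun x hx => ⟨fun c hc => isAlgebraic_of_rk (by simpa using h2 x hx) hc,
    fun c hc => ?_⟩⟩
  have h4 := h3 n 0 x Fin.elim0 (by
    rw [hx]
    have h5 : γ X (Fin.elim0 : Fin 0 → X) = 0 := by
      unfold γ
      rw [Fin.sum_univ_zero]
      rfl
    rw [h5, sub_zero]) c hc
  have h5 : cycRatios x (Fin.elim0 : Fin 0 → X) = ratios fun i => (x i : Pt r) := by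
    unfold cycRatios
    rw [Set.union_eq_left]
    rintro c ⟨i, -⟩
    exact i.elim0
  rw [h5] at h4
  exact h4

end Pool.Agent.H15.TD
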