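import Pool.Graph.R_pool_sql_team_seeded_1acbe0a2.Y148.OD.Defs
import Pool.Graph.R_pool_sql_team_seeded_1acbe0a2.Y148.OD.SurfDefs

/-!
# Transcendence degrees of zero-cycles: definitions
-/

set_option autoImplicit false

namespace Pool.Agent.H15.TD

open Pool.Agent.Y148.OD

/-- The ratios of the homogeneous coordinates of the points of the zero-cycle `∑ [x i] - ∑ [y i]`. -/
def cycRatios {r : ℕ} {X : Set (Pt r)} {a b : ℕ} (x : Fin a → X) (y : Fin b → X) : Set ℂ :=
  ratios (fun i => (x i : Pt r)) ∪ ratios fun i => (y i : Pt r)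

/-- The class `c` in `B(X)` is the class of a zero-cycle `∑ [x i] - ∑ [y i]` whose points have
coordinates in an extension of `K` of transcendence degree at most `t`. -/
def Rep {r : ℕ} {X : Set (Pt r)} (K : Subfield ℂ) (c : B X) (t : ℕ) : Prop :=
  ∃ (a b : ℕ) (x : Fin a → X) (y : Fin b → X), c = γ X x - γ X y ∧
    rk K (cycRatios x y) ≤ (t : ℕ∞)

/-- The point `z` of `Xⁿ` is generic over `K`, where `X` has dimension `N`: the coordinates of its `n`
points generate an extension of `K` of transcendence degree `N n`. -/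
def IsGeneric {r : ℕ} {X : Set (Pt r)} (N : ℕ) (K : Subfield ℂ) {n : ℕ} (z : Fin n → X) : Prop :=
  ((N * n : ℕ) : ℕ∞) ≤ rk K (ratios fun i => (z i : Pt r))

end Pool.Agent.H15.TD
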