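import Pool.Graph.R_pool_sql_team_seeded_1acbe0a2.Y148.OD.TransN
import Pool.Graph.R_pool_sql_team_seeded_1acbe0a2.Y148.OD.Facts

/-!
# Transcendence degrees of families of points and of their coordinate vectors
-/

set_option autoImplicit false

namespace Pool.Agent.H15.TD

open Pool.Agent.Y148.OD

variable {r : ℕ} {ι : Type}

/-- normalised coordinate vectors: their coordinates are ratios of coordinates -/
theorem exists_normal (x : ι → Pt r) : ∃ v : ι → Fin (r + 1) → ℂ, (∀ i, ∃ h : v i ≠ 0,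
    Projectivization.mk ℂ (v i) h = x i) ∧ ∀ i a, v i a ∈ ratios x := by
  choose b hb using fun i => exists_ne (x i).rep_nonzero
  refine ⟨fun i => ((x i).rep (b i))⁻¹ • (x i).rep, fun i => ?_, fun i a => ?_⟩
  · have h1 : ((x i).rep (b i))⁻¹ • (x i).rep ≠ 0 := smul_ne_zero (inv_ne_zero (hb i)) (x i).rep_nonzero
    refine ⟨h1, ?_⟩
    have h2 := mk_smul (x i).rep (x i).rep_nonzero _ (inv_ne_zero (hb i)) h1
    rw [Projectivization.mk_rep] at h2
    exact h2
  · refine ⟨i, a, b i, ?_⟩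
    simp only [Pi.smul_apply, smul_eq_mul]
    rw [div_eq_inv_mul]

/-- generic coordinate vectors -/
theorem exists_generic [Fintype ι] (x : ι → Pt r) {L : Subfield ℂ} (hL : Countable L) :
    ∃ v : ι → Fin (r + 1) → ℂ, (∀ i, ∃ h : v i ≠ 0, Projectivization.mk ℂ (v i) h = x i) ∧
      ∀ K : Subfield ℂ, K ≤ L → rk K (ratios x) + (Fintype.card ι : ℕ∞) ≤ rk K (coords v) := by
  classical
  have := uncountable_complex
  have hL2 : Countable (adj L (ratios x)) := countable_adj (countable_ratios x)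
  obtain ⟨c, hc⟩ := Pool.Agent.Y141.OD.exists_indep (adj L (ratios x)) hL2 ι
  have hcr : (Fintype.card ι : ℕ∞) ≤ rk (adj L (ratios x)) (Set.range c) := by
    refine le_rk_iff.mpr ⟨Set.range c, subset_rfl, hc.to_subtype_range, ?_⟩
    rw [← Set.image_univ, Function.Injective.encard_image hc.injective, Set.encard_univ,
      ENat.card_eq_coe_fintype_card]
  choose b hb using fun i => exists_ne (x i).rep_nonzero
  set v : ι → Fin (r + 1) → ℂ := fun i => (c i / (x i).rep (b i)) • (x i).rep with hv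
  have hcb : ∀ i, c i / (x i).rep (b i) ≠ 0 := fun i => div_ne_zero (hc.ne_zero i) (hb i)
  have hv0 : ∀ i, v i ≠ 0 := fun i => smul_ne_zero (hcb i) (x i).rep_nonzero
  have hvx : ∀ i, Projectivization.mk ℂ (v i) (hv0 i) = x i := by
    intro i
    have h2 := mk_smul (x i).rep (x i).rep_nonzero _ (hcb i) (hv0 i)
    rw [Projectivization.mk_rep] at h2
    exact h2
  refine ⟨v, fun i => ⟨hv0 i, hvx i⟩, fun K hK => ?_⟩
  have hKL : adj K (ratios x) ≤ adj L (ratios x) :=
    adj_le (hK.trans (le_adj_left _ _)) (subset_adj _ _)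
  calc rk K (ratios x) + (Fintype.card ι : ℕ∞)
      ≤ rk K (ratios x) + rk (adj K (ratios x)) (Set.range c) :=
        add_le_add le_rfl (hcr.trans (rk_anti hKL _))
    _ = rk K (ratios x ∪ Set.range c) := (rk_adj_union _ _ _).symm
    _ ≤ rk K (coords v) := rk_le_of_mem ?_
  rintro y (⟨i, a, e, rfl⟩ | ⟨i, rfl⟩)
  · rw [rep_ratio (x i) (hv0 i) (hvx i)]
    exact div_mem (subset_adj _ _ ⟨i, a, rfl⟩) (subset_adj _ _ ⟨i, e, rfl⟩)
  · refine subset_adj _ _ ⟨i, b i, ?_⟩
    rw [hv]
    simp only [Pi.smul_apply, smul_eq_mul]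
    rw [div_mul_cancel₀ _ (hb i)]

/-- the ratios are in the field generated by the coordinates -/
theorem ratios_mem {x : ι → Pt r} {v : ι → Fin (r + 1) → ℂ}
    (hv : ∀ i, ∃ h : v i ≠ 0, Projectivization.mk ℂ (v i) h = x i) (K : Subfield ℂ) :
    ratios x ⊆ adj K (coords v) := by
  rintro y ⟨i, a, e, rfl⟩
  rw [rep_ratio (x i) (hv i).choose (hv i).choose_spec]
  exact div_mem (subset_adj _ _ ⟨i, a, rfl⟩) (subset_adj _ _ ⟨i, e, rfl⟩)

theorem rk_ratios_le {x : ι → Pt r} {v : ι → Fin (r + 1) → ℂ}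
    (hv : ∀ i, ∃ h : v i ≠ 0, Projectivization.mk ℂ (v i) h = x i) (K : Subfield ℂ) :
    rk K (ratios x) ≤ rk K (coords v) := rk_le_of_mem fun _ hy => ratios_mem hv K hy

/-- the coordinates have at most `n` more independent elements than the ratios -/
theorem rk_coords_le_ratios [Fintype ι] {x : ι → Pt r} {v : ι → Fin (r + 1) → ℂ}
    (hv : ∀ i, ∃ h : v i ≠ 0, Projectivization.mk ℂ (v i) h = x i) (K : Subfield ℂ) :
    rk K (coords v) ≤ rk K (ratios x) + (Fintype.card ι : ℕ∞) := by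
  choose hv0 hvx using hv
  choose b hb using fun i => exists_ne (hv0 i)
  set S : Set ℂ := Set.range fun i => v i (b i) with hS
  have h1 : rk K (coords v) ≤ rk K (ratios x ∪ S) := by
    refine rk_le_of_mem ?_
    rintro y ⟨i, a, rfl⟩
    have h2 : v i a = v i (b i) * (v i a / v i (b i)) := by
      rw [mul_div_cancel₀ _ (hb i)]
    rw [h2]
    refine mul_mem (subset_adj _ _ (Or.inr ⟨i, rfl⟩)) (subset_adj _ _ (Or.inl ⟨i, a, b i, ?_⟩))
    exact (rep_ratio (x i) (hv0 i) (hvx i) a (b i)).symm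
  have h2 : rk K S ≤ (Fintype.card ι : ℕ∞) := by
    refine (rk_le_encard _ _).trans ?_
    rw [hS, ← Set.image_univ]
    refine (Set.encard_image_le _ _).trans ?_
    rw [Set.encard_univ, ENat.card_eq_coe_fintype_card]
  exact h1.trans ((rk_union_le _ _ _).trans (add_le_add le_rfl h2))

end Pool.Agent.H15.TD
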