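import Pool.Agent.H15.TD.Defs
import Pool.Agent.H15.TD.Pts

/-!
# Transcendence degrees of zero-cycles: the proofs
-/

set_option autoImplicit false

namespace Pool.Agent.H15.TD

open Pool.Agent.Y148.OD

variable {r : ℕ} {X : Set (Pt r)}

/-- The degree of a zero-cycle. -/
theorem deg_eq {n m : ℕ} {x : Fin n → X} {y : Fin m → X} (h : γ X x = γ X y) : n = m := by
  let φ : FreeAbelianGroup X →+ ℤ := FreeAbelianGroup.lift fun _ => 1
  have hφ : ∀ {k : ℕ} (z : Fin k → X), φ (∑ i, FreeAbelianGroup.of (z i)) = k := by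
    intro k z
    rw [map_sum]
    simp [φ]
  have h1 : AddSubgroup.closure {e : FreeAbelianGroup X |
      ∃ (n : ℕ) (x y : Fin n → X), Joined X n x y ∧
        e = ∑ i, FreeAbelianGroup.of (x i) - ∑ i, FreeAbelianGroup.of (y i)} ≤ φ.ker := by
    rw [AddSubgroup.closure_le]
    rintro e ⟨k, u, w, -, rfl⟩
    show φ _ = 0
    rw [map_sub, hφ, hφ, sub_self]
  have h2 := QuotientAddGroup.eq.1 h
  have h3 : φ _ = 0 := h1 h2
  rw [map_add, map_neg, hφ, hφ] at h3
  omega

theorem sum_cl_eq {n : ℕ} {x : Fin n → X} {v : Fin n → Fin (r + 1) → ℂ}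
    (hv : ∀ i, ∃ h : v i ≠ 0, Projectivization.mk ℂ (v i) h = (x i : Pt r)) :
    (∀ i, v i ∈ cone X) ∧ ∑ i, cl X (v i) = γ X x := by
  have h1 : ∀ i, v i ∈ cone X := fun i => ⟨(hv i).choose, by
    rw [(hv i).choose_spec]
    exact (x i).2⟩
  refine ⟨h1, ?_⟩
  have h2 := γ_pt fun i => (⟨v i, h1 i⟩ : cone X)
  have h3 : (fun i => pt (⟨v i, h1 i⟩ : cone X)) = x := by
    funext i
    exact Subtype.ext (hv i).choose_spec
  rw [h3] at h2
  exact h2.symm

theorem countable_cycRatios {a b : ℕ} (x : Fin a → X) (y : Fin b → X) :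
    (cycRatios x y).Countable := (countable_ratios _).union (countable_ratios _)

/-- **The key lemma.** -/
theorem terminal_bound {k' : Subfield ℂ} {E : Set (Fin (r + 1) → ℂ)} {m' N : ℕ}
    (hk' : Setup k' (cone X) (N + 1)) (hc : Cls k' (cone X) (cl X))
    (hE : Terminal k' (cone X) E m' (cl X)) (hm' : 3 ≤ m') {K : Subfield ℂ} (hK : Countable K)
    (hk'K : k' ≤ K) {n : ℕ} (z : Fin n → X) (hz : IsGeneric N K z) {a b : ℕ} (x : Fin a → X)
    (y : Fin b → X) (h : γ X z = γ X x - γ X y) :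
    rk (adj K (cycRatios x y)) (ratios fun i => (z i : Pt r)) ≤ (((N - 2) * n : ℕ) : ℕ∞) := by
  classical
  have := uncountable_complex
  by_contra hcon
  rw [not_le] at hcon
  have hcon1 : (((N - 2) * n + 1 : ℕ) : ℕ∞) ≤
      rk (adj K (cycRatios x y)) (ratios fun i => (z i : Pt r)) := by
    have := Order.add_one_le_of_lt hcon
    exact_mod_cast this
  set K' := adj K (cycRatios x y) with hK'
  have hK'c : Countable K' := countable_adj (countable_cycRatios x y)
  have hKK' : K ≤ K' := le_adj_left _ _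
  obtain ⟨u, hu, huK⟩ := exists_normal fun i => (x i : Pt r)
  obtain ⟨w, hw, hwK⟩ := exists_normal fun i => (y i : Pt r)
  obtain ⟨v, hv, hvK⟩ := exists_generic (fun i => (z i : Pt r)) hK'c
  obtain ⟨hu1, hu2⟩ := sum_cl_eq hu
  obtain ⟨hw1, hw2⟩ := sum_cl_eq hw
  obtain ⟨hv1, hv2⟩ := sum_cl_eq hv
  have huK' : ∀ i c, u i c ∈ K' := fun i c => subset_adj _ _ (Or.inl (huK i c))
  have hwK' : ∀ i c, w i c ∈ K' := fun i c => subset_adj _ _ (Or.inr (hwK i c))
  have hr1 := hvK K' le_rfl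
  have hr2 := hvK K hKK'
  rw [Fintype.card_fin] at hr1 hr2
  have hr1' : (((N - 2) * n + 1 + n : ℕ) : ℕ∞) ≤ rk K' (coords v) := by
    refine le_trans ?_ hr1
    push_cast
    push_cast at hcon1
    exact add_le_add hcon1 le_rfl
  have hr2' : (((N + 1) * n : ℕ) : ℕ∞) ≤ rk K (coords v) := by
    refine le_trans ?_ hr2
    have h1 : (((N + 1) * n : ℕ) : ℕ∞) = ((N * n : ℕ) : ℕ∞) + (n : ℕ∞) := by
      rw [← Nat.cast_add]
      congr 1
      ring
    rw [h1]
    exact add_le_add hz le_rfl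
  have hsum : ∑ i, cl X (u i) = ∑ i : Fin n ⊕ Fin b, cl X (Sum.elim v w i) := by
    rw [Fintype.sum_sum_type]
    simp only [Sum.elim_inl, Sum.elim_inr]
    rw [hu2, hw2, hv2, h]
    abel
  have hcard : Fintype.card (Fin a) = Fintype.card (Fin n ⊕ Fin b) := by
    rw [Fintype.card_sum, Fintype.card_fin, Fintype.card_fin, Fintype.card_fin]
    have h1 : γ X x = γ X (Fin.append z y) := by
      have h2 : γ X (Fin.append z y) = γ X z + γ X y := by
        unfold γ
        rw [Fin.sum_univ_add]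
        simp only [Fin.append_left, Fin.append_right]
        rfl
      rw [h2, h]
      abel
    exact deg_eq h1
  have hLc : Countable (adj K' (coords v)) := countable_adj (countable_coords v)
  obtain ⟨y', hy'1, hy'2, hy'3, hy'4⟩ := hc.orbit_ext (κ := Fin a) (ι := Fin n ⊕ Fin b) hcard
    (hk'K.trans hKK') (le_adj_left K' (coords v)) hLc hu1 huK'
    (y := Sum.elim v w) (by
      rintro (i | i)
      · exact hv1 i
      · exact hw1 i)
    (Set.range Sum.inl) (by
      rintro (i | i) hi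
      · exact absurd ⟨i, rfl⟩ hi
      · exact hwK' i) hsum
  have hcof : ∀ q : Fin n ⊕ Fin b → Fin (r + 1) → ℂ,
      cof (Set.range Sum.inl) q = coords fun i : Fin n => q (Sum.inl i) := by
    intro q
    ext c
    constructor
    · rintro ⟨_, ⟨i, rfl⟩, e, he⟩
      exact ⟨i, e, he⟩
    · rintro ⟨i, e, he⟩
      exact ⟨Sum.inl i, ⟨i, rfl⟩, e, he⟩
  rw [hcof, hcof] at hy'4
  set z' : Fin n → Fin (r + 1) → ℂ := fun i => y' (Sum.inl i) with hz'
  have hz'sum : ∑ i, cl X (v i) = ∑ i, cl X (z' i) := by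
    rw [Fintype.sum_sum_type, Fintype.sum_sum_type] at hy'3
    have h1 : ∀ i : Fin b, y' (Sum.inr i) = w i := by
      intro i
      exact hy'2 (Sum.inr i) (by rintro ⟨j, hj⟩; cases hj)
    simp only [h1, Sum.elim_inl, Sum.elim_inr] at hy'3
    exact (add_right_cancel hy'3).symm
  have h1 := hE.orbit_le hk' hc (z := v) (y := z') hv1 (fun i => hy'1 _) hz'sum
    (hr2'.trans (rk_anti hk'K _))
  have h2 : (((N - 2) * n + 1 + n : ℕ) : ℕ∞) ≤ rk (adj k' (coords v)) (coords z') := by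
    refine (hr1'.trans hy'4).trans (rk_anti ?_ _)
    exact adj_le ((hk'K.trans hKK').trans (le_adj_left _ _)) (subset_adj _ _)
  obtain ⟨Y, hY⟩ := exists_nat_rk hk' (le_adj_left k' (coords v)) (fun i => hy'1 (Sum.inl i))
  have hY' : (Y : ℕ∞) = rk (adj k' (coords v)) (coords z') := hY
  rw [← hY'] at h1 h2
  have h3 : Y + m' * n ≤ (N + 1 + 1) * n := by exact_mod_cast h1
  have h4 : (N - 2) * n + 1 + n ≤ Y := by exact_mod_cast h2
  have h5 : 3 * n ≤ m' * n := Nat.mul_le_mul_right _ hm'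
  rcases Nat.lt_or_ge N 2 with hN | hN
  · have h6 : N - 2 = 0 := by omega
    rw [h6] at h4
    have h7 : (N + 1 + 1) * n ≤ 3 * n := Nat.mul_le_mul_right _ (by omega)
    omega
  · obtain ⟨M, rfl⟩ : ∃ M, N = M + 2 := ⟨N - 2, by omega⟩
    have h6 : M + 2 - 2 = M := by omega
    rw [h6] at h4
    nlinarith

/-- every class is the class of a difference of effective zero-cycles -/
theorem exists_sub (c : B X) : ∃ (a b : ℕ) (x : Fin a → X) (y : Fin b → X),
    c = γ X x - γ X y := by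
  obtain ⟨e, rfl⟩ := QuotientAddGroup.mk_surjective c
  induction e using FreeAbelianGroup.induction_on with
  | zero =>
    refine ⟨0, 0, Fin.elim0, Fin.elim0, ?_⟩
    rw [sub_self]
    rfl
  | of p =>
    refine ⟨1, 0, fun _ => p, Fin.elim0, ?_⟩
    unfold γ
    rw [Fin.sum_univ_one, Fin.sum_univ_zero]
    exact (sub_zero _).symm
  | neg p ih =>
    obtain ⟨a, b, x, y, h⟩ := ih
    refine ⟨b, a, y, x, ?_⟩
    rw [QuotientAddGroup.mk_neg, h, neg_sub]
  | add p q hp hq =>
    obtain ⟨a, b, x, y, h⟩ := hp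
    obtain ⟨a', b', x', y', h'⟩ := hq
    refine ⟨a + a', b + b', Fin.append x x', Fin.append y y', ?_⟩
    have h2 : ∀ {n m : ℕ} (z : Fin n → X) (z' : Fin m → X),
        γ X (Fin.append z z') = γ X z + γ X z' := by
      intro n m z z'
      unfold γ
      rw [Fin.sum_univ_add]
      simp only [Fin.append_left, Fin.append_right]
      rfl
    rw [QuotientAddGroup.mk_add, h, h', h2, h2]
    abel

end Pool.Agent.H15.TD
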