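import Pool.Agent.H15.TD.Main

/-!
# Transcendence degrees of zero-cycles: the equivalences
-/

set_option autoImplicit false

namespace Pool.Agent.H15.TD

open Pool.Agent.Y148.OD

variable {r : ℕ} {X : Set (Pt r)}

theorem Rep.mono {K : Subfield ℂ} {c : B X} {s t : ℕ} (h : Rep K c s) (hst : s ≤ t) :
    Rep K c t := by
  obtain ⟨a, b, x, y, h1, h2⟩ := h
  exact ⟨a, b, x, y, h1, h2.trans (by exact_mod_cast hst)⟩

/-- Bounded zero-cycles have representatives of bounded transcendence degree. -/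
theorem rep_of_bdd {k : Subfield ℂ} {q : ℕ} (hB : Bdd k (cone X) (cone X) (cl X) q) (c : B X) :
    Rep k c (q + q) := by
  obtain ⟨a, b, x, y, rfl⟩ := exists_sub c
  have key : ∀ {n : ℕ} (x : Fin n → X), ∃ x' : Fin n → X, γ X x' = γ X x ∧
      rk k (ratios fun i => (x' i : Pt r)) ≤ (q : ℕ∞) := by
    intro n x
    obtain ⟨v, hv, -⟩ := exists_normal fun i => (x i : Pt r)
    obtain ⟨hv1, hv2⟩ := sum_cl_eq hv
    obtain ⟨u, hu, hus, hur⟩ := hB (Fin n) v hv1
    refine ⟨fun i => pt ⟨u i, hu i⟩, ?_, ?_⟩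
    · rw [γ_pt fun i => (⟨u i, hu i⟩ : cone X), ← hv2]
      exact hus
    · refine (rk_ratios_le (v := u) (fun i => ⟨(hu i).choose, rfl⟩) k).trans hur
  obtain ⟨x', hx, hxr⟩ := key x
  obtain ⟨y', hy, hyr⟩ := key y
  refine ⟨a, b, x', y', by rw [hx, hy], ?_⟩
  refine (rk_union_le _ _ _).trans ((add_le_add hxr hyr).trans ?_)
  push_cast
  exact le_rfl

/-- existence of generic points -/
theorem exists_isGeneric {k : Subfield ℂ} {N : ℕ} (hk : Setup k (cone X) (N + 1)) (n : ℕ)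
    {K : Subfield ℂ} (hK : Countable K) : ∃ z : Fin n → X, IsGeneric N K z := by
  obtain ⟨v, hv, hvr⟩ := hk.exists_family hK n
  refine ⟨fun i => pt ⟨v i, hv i⟩, ?_⟩
  have h1 := rk_coords_le_ratios (x := fun i => ((pt ⟨v i, hv i⟩ : X) : Pt r)) (v := v)
    (fun i => ⟨(hv i).choose, rfl⟩) K
  rw [Fintype.card_fin] at h1
  refine cancel_aux (p := n) (q := N * n) (a := (n : ℕ∞)) ?_ le_rfl
  refine le_trans ?_ ((hvr.trans h1).trans (le_of_eq (add_comm _ _)))
  have h2 : n + N * n = (N + 1) * n := by ring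
  rw [h2]

/-- The alternative: the zero-cycles are bounded, or there is a terminal subvariety. -/
theorem alternative {N : ℕ} (hN : 1 ≤ N) (hX : IsVariety X N) :
    ((∃ (k : Subfield ℂ) (q : ℕ), Countable k ∧ Bdd k (cone X) (cone X) (cl X) q) ∧
      ∃ c, ∀ n, dn X N n ≤ c) ∨
    ((¬ ∃ c, ∀ n, dn X N n ≤ c) ∧ ∃ (k : Subfield ℂ) (E : Set (Fin (r + 1) → ℂ)) (m' : ℕ),
      3 ≤ m' ∧ Setup k (cone X) (N + 1) ∧ Cls k (cone X) (cl X) ∧
        Terminal k (cone X) E m' (cl X)) := by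
  have := uncountable_complex
  obtain ⟨k, hk⟩ := setup_cone hX
  have hc := cls_cone stmStab hk
  have htf := variety_tfae stmComp stmCurve stmStab hN hX
  have hx : ∀ {n : ℕ} (x : Fin n → X), ∑ i, cl X (vec (x i)) = γ X x := by
    intro n x
    rw [← γ_pt]
    simp only [pt_vec]
  rcases dichotomy stmComp stmCurve hk hc (fun n x y h => cl_eq_of_rat x y h) (N + 1) k (cone X)
    le_rfl subset_rfl hk hc.smul_mem with h1 | h1
  · left
    obtain ⟨k', q, hk'c, hkk', hB⟩ := h1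
    refine ⟨⟨k', q, hk'c, hB⟩, (htf.out 2 0).mp ?_⟩
    obtain ⟨z, -⟩ := exists_isGeneric hk ((N + 1) * q + 1) hk'c
    refine ⟨(N + 1) * q + 1, z, ?_⟩
    have h2 := big_of_bdd (hk.mono hkk' hk'c) (by omega) (hc.mono hkk') hB ((N + 1) * q + 1)
      (z₀ := fun i => (vec (z i) : Fin (r + 1) → ℂ)) (fun i => (vec (z i)).2)
    have h3 := (big_iff (hx z) ((N - 1) * ((N + 1) * q + 1) + 1)).mp (h2.mono (by
      obtain ⟨M, rfl⟩ : ∃ M, N = M + 1 := ⟨N - 1, by omega⟩
      have h4 : M + 1 - 1 = M := by omega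
      rw [h4]
      set s := (M + 1 + 1) * q with hs
      have h5 : (M + 1 + 1) * (s + 1) = M * (s + 1) + (s + 1) + (s + 1) := by ring
      rw [h5]
      omega))
    exact h3
  · right
    obtain ⟨k', E, m', hk'c, hkk', hm', hE⟩ := h1
    refine ⟨fun h2 => ?_, k', E, m', hm', hk.mono hkk' hk'c, hc.mono hkk', hE⟩
    obtain ⟨n, x, hn⟩ := (htf.out 0 2).mp h2
    have h3 : (N - 1) * n + 1 ≤ dim (fibre X x) := hn
    have h4 := (big_iff (hx x) ((N - 1) * n + 1)).mpr h3
    refine hE.not_big (hk.mono hkk' hk'c) (hc.mono hkk') hm'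
      (z := fun i => (vec (x i) : Fin (r + 1) → ℂ)) (fun i => (vec (x i)).2) (h4.mono ?_)
    obtain ⟨M, rfl⟩ : ∃ M, N = M + 1 := ⟨N - 1, by omega⟩
    have h5 : M + 1 - 1 = M := by omega
    have h6 : M + 1 + 1 - 1 = M + 1 := by omega
    rw [h5, h6]
    have h7 : (M + 1) * n = M * n + n := by ring
    omega

/-- Zero-cycles of small transcendence degree do not determine generic points. -/
theorem rk_ge {N n s : ℕ} {K : Subfield ℂ} {z : Fin n → X} (hz : IsGeneric N K z) {S : Set ℂ}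
    (hS : rk K S ≤ (s : ℕ∞)) (hs : s ≤ N * n) :
    ((N * n - s : ℕ) : ℕ∞) ≤ rk (adj K S) (ratios fun i => (z i : Pt r)) := by
  refine cancel_aux (p := s) (q := N * n - s) (a := rk K S) ?_ hS
  rw [← rk_adj_union]
  have h1 : s + (N * n - s) = N * n := by omega
  rw [h1]
  exact hz.trans (rk_mono _ Set.subset_union_right)

/-- **The equivalences.** -/
theorem tfae {N : ℕ} (hN : 2 ≤ N) (hX : IsVariety X N) : List.TFAE [
    ∃ c : ℕ, ∀ n, dn X N n ≤ c,
    ∃ (K : Subfield ℂ) (t : ℕ), Countable K ∧ ∀ c : B X, Rep K c t,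
    ∃ (K : Subfield ℂ) (n : ℕ), Countable K ∧ 0 < n ∧ ∀ z : Fin n → X, Rep K (γ X z) (2 * n - 1),
    ∃ n : ℕ, ∀ K₀ : Subfield ℂ, Countable K₀ → ∃ K : Subfield ℂ, Countable K ∧ K₀ ≤ K ∧
      ∃ z : Fin n → X, IsGeneric N K z ∧ ∃ (a b : ℕ) (x : Fin a → X) (y : Fin b → X),
        γ X z = γ X x - γ X y ∧
          (((N - 2) * n : ℕ) : ℕ∞) < rk (adj K (cycRatios x y)) (ratios fun i => (z i : Pt r))] := by
  have halt := alternative (by omega) hX
  obtain ⟨k, hk⟩ := setup_cone hX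
  tfae_have 1 → 2 := by
    intro h
    rcases halt with ⟨⟨k', q, hk'c, hB⟩, -⟩ | ⟨h1, -⟩
    · exact ⟨k', q + q, hk'c, fun c => rep_of_bdd hB c⟩
    · exact absurd h h1
  tfae_have 2 → 3 := by
    rintro ⟨K, t, hK, h⟩
    exact ⟨K, t + 1, hK, by omega, fun z => (h _).mono (by omega)⟩
  tfae_have 3 → 4 := by
    rintro ⟨K₁, n, hK₁, hn, h⟩
    refine ⟨n, fun K₀ hK₀ => ?_⟩
    have hKc : Countable (adj K₀ (K₁ : Set ℂ)) := countable_adj (Set.countable_coe_iff.mp hK₁)
    refine ⟨adj K₀ K₁, hKc, le_adj_left _ _, ?_⟩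
    obtain ⟨z, hz⟩ := exists_isGeneric hk n hKc
    obtain ⟨a, b, x, y, h1, h2⟩ := h z
    refine ⟨z, hz, a, b, x, y, h1, ?_⟩
    have h3 : K₁ ≤ adj K₀ (K₁ : Set ℂ) := subset_adj _ _
    have h4 : 2 * n ≤ N * n := Nat.mul_le_mul_right _ hN
    have h5 := rk_ge hz ((rk_anti h3 _).trans h2) (by omega)
    refine lt_of_lt_of_le ?_ h5
    have h6 : (N - 2) * n < N * n - (2 * n - 1) := by
      obtain ⟨M, rfl⟩ : ∃ M, N = M + 2 := ⟨N - 2, by omega⟩
      have h7 : M + 2 - 2 = M := by omega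
      have h8 : (M + 2) * n = M * n + 2 * n := by ring
      rw [h7, h8]
      omega
    exact_mod_cast h6
  tfae_have 4 → 1 := by
    rintro ⟨n, h⟩
    rcases halt with ⟨-, h1⟩ | ⟨-, k', E, m', hm', hk', hc, hE⟩
    · exact h1
    · exfalso
      obtain ⟨K, hK, hk'K, z, hz, a, b, x, y, h1, h2⟩ := h k' hk'.countable
      exact absurd (terminal_bound hk' hc hE hm' hK hk'K z hz x y h1) (not_le.mpr h2)
  tfae_finish

/-- **Rigidity of generic zero-cycles.** -/
theorem rigid {N : ℕ} (hN : 2 ≤ N) (hX : IsVariety X N) (hinf : ¬ ∃ c : ℕ, ∀ n, dn X N n ≤ c) :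
    ∃ K₀ : Subfield ℂ, Countable K₀ ∧ ∀ K : Subfield ℂ, Countable K → K₀ ≤ K →
      ∀ (n : ℕ) (z : Fin n → X), IsGeneric N K z →
        (∀ (a b : ℕ) (x : Fin a → X) (y : Fin b → X), γ X z = γ X x - γ X y →
          rk (adj K (cycRatios x y)) (ratios fun i => (z i : Pt r)) ≤ (((N - 2) * n : ℕ) : ℕ∞) ∧
            ((2 * n : ℕ) : ℕ∞) ≤ rk K (cycRatios x y)) ∧
        ∀ x : Fin n → X, γ X x = γ X z →
          rk (adj K (ratios fun i => (z i : Pt r))) (ratios fun i => (x i : Pt r)) ≤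
            (((N - 2) * n : ℕ) : ℕ∞) := by
  classical
  have := uncountable_complex
  rcases alternative (by omega) hX with ⟨-, h1⟩ | ⟨-, k', E, m', hm', hk', hc, hE⟩
  · exact absurd h1 hinf
  refine ⟨k', hk'.countable, fun K hK hk'K n z hz => ⟨fun a b x y h => ?_, fun x h => ?_⟩⟩
  · have h1 := terminal_bound hk' hc hE hm' hK hk'K z hz x y h
    refine ⟨h1, ?_⟩
    have h2 : ((N * n : ℕ) : ℕ∞) ≤ rk (adj K (cycRatios x y)) (ratios fun i => (z i : Pt r)) +
        rk K (cycRatios x y) := by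
      rw [add_comm, ← rk_adj_union]
      exact hz.trans (rk_mono _ Set.subset_union_right)
    refine cancel_aux (p := (N - 2) * n) ?_ h1
    refine le_trans (le_of_eq ?_) h2
    congr 1
    obtain ⟨M, rfl⟩ : ∃ M, N = M + 2 := ⟨N - 2, by omega⟩
    have h7 : M + 2 - 2 = M := by omega
    rw [h7]
    ring
  · have hKR : Countable (adj K ((ratios fun i => (z i : Pt r)) ∪ ratios fun i => (x i : Pt r))) :=
      countable_adj ((countable_ratios _).union (countable_ratios _))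
    obtain ⟨v, hv, hvK⟩ := exists_generic (fun i => (z i : Pt r)) hKR
    have hKRv : Countable (adj (adj K ((ratios fun i => (z i : Pt r)) ∪
        ratios fun i => (x i : Pt r))) (coords v)) := countable_adj (countable_coords v)
    obtain ⟨u, hu, huK⟩ := exists_generic (fun i => (x i : Pt r)) hKRv
    obtain ⟨hv1, hv2⟩ := sum_cl_eq hv
    obtain ⟨hu1, hu2⟩ := sum_cl_eq hu
    set R := ratios fun i => (z i : Pt r) with hR
    set S := ratios fun i => (x i : Pt r) with hS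
    set L := adj K (R ∪ S) with hL
    have hKL : K ≤ L := le_adj_left _ _
    have h1 := huK (adj K (coords v)) (adj_le (hKL.trans (le_adj_left _ _)) (subset_adj _ _))
    have h2 := hvK K hKL
    have h3 := hvK L le_rfl
    rw [Fintype.card_fin] at h1 h2 h3
    have h4 : (((N + 1) * n : ℕ) : ℕ∞) ≤ rk K (coords v) := by
      refine le_trans ?_ h2
      have h5 : (((N + 1) * n : ℕ) : ℕ∞) = ((N * n : ℕ) : ℕ∞) + (n : ℕ∞) := by
        rw [← Nat.cast_add]
        congr 1
        ring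
      rw [h5]
      exact add_le_add hz le_rfl
    have hkK := hk'.mono hk'K hK
    have h5 := (hE.mono hk'K hK).orbit_le hkK (hc.mono hk'K) (z := v) (y := u) hv1 hu1
      (by rw [hv2, hu2, h]) h4
    -- finiteness
    obtain ⟨A, hA⟩ := exists_nat_rk hkK le_rfl hv1
    obtain ⟨B', hB'⟩ := exists_nat_rk hkK (le_adj_left K (coords v)) hu1
    rw [← hB'] at h1 h5
    -- comparison of the ranks
    have h6 : rk K R + rk (adj K R) S + (n : ℕ∞) ≤ rk K (coords v) + rk (adj K (coords v)) S := by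
      have h7 : rk K (R ∪ S) + rk L (coords v) ≤ rk K (coords v ∪ S) := by
        rw [hL, ← rk_adj_union]
        refine rk_le_of_mem ?_
        rintro y ((hy | hy) | hy)
        · exact adj_le (le_adj_left _ _) (Set.subset_union_left.trans (subset_adj _ _))
            (ratios_mem hv K hy)
        · exact subset_adj _ _ (Or.inr hy)
        · exact subset_adj _ _ (Or.inl hy)
      have h8 : (n : ℕ∞) ≤ rk L (coords v) := le_trans (by simp) h3
      rw [rk_adj_union K (coords v) S, rk_adj_union K R S] at h7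
      exact (add_le_add le_rfl h8).trans h7
    have h7 := rk_coords_le_ratios hv K
    rw [Fintype.card_fin] at h7
    have hRfin : rk K R ≠ ⊤ := ne_top_of_le_ne_top (by rw [← hA]; exact ENat.natCast_ne_top A)
      ((rk_ratios_le hv K))
    obtain ⟨C, hC⟩ := ENat.ne_top_iff_exists.mp hRfin
    have hSfin : rk (adj K (coords v)) S ≠ ⊤ := by
      refine ne_top_of_le_ne_top (ENat.natCast_ne_top B') (le_trans ?_ h1)
      exact le_self_add
    obtain ⟨D, hD⟩ := ENat.ne_top_iff_exists.mp hSfin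
    rw [← hD] at h1 h6
    rw [← hA] at h6 h7
    rw [← hC] at h6 h7
    have hfin : rk (adj K R) S ≠ ⊤ := by
      refine ne_top_of_le_ne_top (b := ((A + D : ℕ) : ℕ∞)) (ENat.natCast_ne_top _) ?_
      refine le_trans ?_ (h6.trans (by push_cast; exact le_rfl))
      exact (le_add_self).trans le_self_add
    obtain ⟨F, hF⟩ := ENat.ne_top_iff_exists.mp hfin
    rw [← hF] at h6 ⊢
    have e1 : D + n ≤ B' := by exact_mod_cast h1
    have e5 : B' + m' * n ≤ (N + 1 + 1) * n := by exact_mod_cast h5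
    have e6 : C + F + n ≤ A + D := by exact_mod_cast h6
    have e7 : A ≤ C + n := by exact_mod_cast h7
    have e8 : 3 * n ≤ m' * n := Nat.mul_le_mul_right _ hm'
    have e9 : F ≤ (N - 2) * n := by
      obtain ⟨M, rfl⟩ : ∃ M, N = M + 2 := ⟨N - 2, by omega⟩
      have e10 : M + 2 - 2 = M := by omega
      rw [e10]
      nlinarith
    exact_mod_cast e9

end Pool.Agent.H15.TD
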